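import Mathlib

namespace Pool.Agent.Results.MP_22519f_co.Counter

variable {V : Type}

/-- the hat game `(D, g, h)`; `E u v` means that `u` sees `v` -/
def Winnable (E : V → V → Prop) (g h : V → ℕ) : Prop :=
  ∃ f : V → (V → ℕ) → Finset ℕ,
    (∀ v c, (f v c).card = g v ∧ f v c ⊆ Finset.range (h v)) ∧
    (∀ v c c', (∀ u, E v u → c u = c' u) → f v c = f v c') ∧
    ∀ c : V → ℕ, (∀ v, c v < h v) → ∃ v, c v ∈ f v c

def Redundant (E : V → V → Prop) (S : Set V) : Prop :=
  ∀ w, (∃ s ∈ S, E s w) → ∀ u, (∃ s ∈ S, E u s) → E u w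

def E (u v : Fin 4) : Prop := (u, v) ∈ [((0 : Fin 4), (1 : Fin 4)), (1, 2), (1, 3), (2, 0), (3, 0)]

instance : DecidableRel E := fun _ _ => inferInstanceAs (Decidable (_ ∈ _))

theorem out (T : Finset ℕ) (m : ℕ) (h : T.card < m) : ∃ x < m, x ∉ T := by
  obtain ⟨x, h1, h2⟩ := Finset.exists_mem_notMem_of_card_lt_card
    (s := T) (t := Finset.range m) (by simpa using h)
  exact ⟨x, Finset.mem_range.1 h1, h2⟩

theorem upper (s m : ℕ) (h : Winnable E (fun _ => s) fun _ => m) : m ≤ 2 * s := by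
  obtain ⟨f, h1, h2, h3⟩ := h
  dsimp only at h1 h3
  by_contra hm
  obtain ⟨x, hx, hA⟩ : ∃ x ∈ Finset.range m,
      ((Finset.range m).filter fun a => x ∈ f 0 fun _ => a).card ≤ s := by
    by_contra hn
    push Not at hn
    have e := Finset.sum_card_bipartiteAbove_eq_sum_card_bipartiteBelow
      (s := Finset.range m) (t := Finset.range m) (fun x a => x ∈ f 0 fun _ => a)
    have l1 : ∑ _x ∈ Finset.range m, s < ∑ x ∈ Finset.range m,
        (Finset.bipartiteAbove (fun x a => x ∈ f 0 fun _ => a) (Finset.range m) x).card :=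
      Finset.sum_lt_sum_of_nonempty (Finset.nonempty_range_iff.2 (by omega)) hn
    have l2 : ∑ a ∈ Finset.range m,
        (Finset.bipartiteBelow (fun x a => x ∈ f 0 fun _ => a) (Finset.range m) a).card ≤
        ∑ _x ∈ Finset.range m, s := Finset.sum_le_sum fun a _ => by
      rw [← (h1 0 fun _ => a).1]
      exact Finset.card_le_card fun y hy => (Finset.mem_filter.1 hy).2
    omega
  rw [Finset.mem_range] at hx
  obtain ⟨b, hb, hb'⟩ := out (f 2 fun _ => x) m (by rw [(h1 _ _).1]; omega)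
  obtain ⟨c, hc, hc'⟩ := out (f 3 fun _ => x) m (by rw [(h1 _ _).1]; omega)
  obtain ⟨a, ha, ha'⟩ := out (f 1 ![0, 0, b, c] ∪
    (Finset.range m).filter fun a => x ∈ f 0 fun _ => a) m
    (lt_of_le_of_lt (Finset.card_union_le _ _) (by rw [(h1 _ _).1]; omega))
  simp only [Finset.mem_union, Finset.mem_filter, Finset.mem_range, not_or, not_and] at ha'
  obtain ⟨v, hv⟩ := h3 ![x, a, b, c] (by intro v; fin_cases v <;> assumption)
  have k : ∀ u v, E u v → (u = 0 ∧ v = 1) ∨ (u = 1 ∧ (v = 2 ∨ v = 3)) ∨ ((u = 2 ∨ u = 3) ∧ v = 0) := by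
    decide
  fin_cases v
  · refine ha'.2 ha (h2 0 ![x, a, b, c] (fun _ => a) (fun u hu => ?_) ▸ hv)
    have := k _ _ hu
    simp only [true_and, Fin.reduceEq, false_and, or_false] at this
    subst this; rfl
  · refine ha'.1 (h2 1 ![x, a, b, c] ![0, 0, b, c] (fun u hu => ?_) ▸ hv)
    have := k _ _ hu
    simp only [true_and, Fin.reduceEq, false_and, or_false, false_or] at this
    rcases this with rfl | rfl <;> rfl
  · refine hb' (h2 2 ![x, a, b, c] (fun _ => x) (fun u hu => ?_) ▸ hv)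
    have := k _ _ hu
    simp only [true_and, Fin.reduceEq, false_and, or_false, false_or] at this
    subst this; rfl
  · refine hc' (h2 3 ![x, a, b, c] (fun _ => x) (fun u hu => ?_) ▸ hv)
    have := k _ _ hu
    simp only [true_and, Fin.reduceEq, false_and, false_or] at this
    subst this; rfl

theorem result : ∃ (n k : ℕ) (E : Fin n → Fin n → Prop) (h : Fin n → ℕ),
    (∀ v, ¬ E v v) ∧ (∀ u v, Relation.ReflTransGen E u v) ∧
    (∀ S, Redundant E S → S = ∅) ∧ (∃ u v, u ≠ v ∧ ¬ E u v) ∧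
    2 ≤ k ∧ (∀ v, k ≤ h v) ∧ (∃ v, h v ≠ k) ∧ Winnable E (fun _ => 1) h ∧
    ∀ s m, Winnable E (fun _ => s) (fun _ => m) → m ≤ k * s := by
  refine ⟨4, 2, E, ![2, 2, 2, 3], by decide, fun u v => ?_, fun S hS => ?_, ⟨0, 2, by decide⟩, le_rfl,
    by decide, ⟨3, by decide⟩, ?_, upper⟩
  · have t : ∀ u v, u = v ∨ E u v ∨ (∃ a, E u a ∧ E a v) ∨ ∃ a b, E u a ∧ E a b ∧ E b v := by decide
    rcases t u v with rfl | h | ⟨a, h, h'⟩ | ⟨a, b, h, h', h''⟩
    · rfl
    · exact .single h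
    · exact (Relation.ReflTransGen.single h).tail h'
    · exact ((Relation.ReflTransGen.single h).tail h').tail h''
  · ext s
    simp only [Set.mem_empty_iff_false, iff_false]
    intro hs
    obtain ⟨w, u, h1, h2, h3⟩ := (by decide : ∀ s, ∃ w u, E s w ∧ E u s ∧ ¬ E u w) s
    exact h3 (hS w ⟨s, hs, h1⟩ u ⟨s, hs, h2⟩)
  · refine ⟨fun v c => {c (![1, 2, 0, 0] v) % 2}, fun v c => ⟨by simp, ?_⟩, fun v c c' h => ?_,
      fun c hc => ?_⟩
    · have := Nat.mod_lt (c (![1, 2, 0, 0] v)) (by norm_num : 0 < 2)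
      have h2 : 2 ≤ (![2, 2, 2, 3] : Fin 4 → ℕ) v := by fin_cases v <;> simp
      simp only [Finset.singleton_subset_iff, Finset.mem_range]
      omega
    · simp only [h (![1, 2, 0, 0] v) ((by decide : ∀ v, E v (![1, 2, 0, 0] v)) v)]
    · have h0 : c 0 < 2 := hc 0
      have h1 : c 1 < 2 := hc 1
      have h2 : c 2 < 2 := hc 2
      by_cases a : c 0 = c 1 % 2
      · exact ⟨0, Finset.mem_singleton.2 a⟩
      by_cases b : c 1 = c 2 % 2
      · exact ⟨1, Finset.mem_singleton.2 b⟩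
      · exact ⟨2, Finset.mem_singleton.2 (show c 2 = c 0 % 2 by omega)⟩

end Pool.Agent.Results.MP_22519f_co.Counter
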